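import Pool.Agent.Q82.CW.Br

/-!
The principle of linearised stability fails for `w_ττ + 5 w_τ = (w w_x)_x + 2 w² - 6 w` at the profile
`g`, because in every hypersurface of data through `(g, 0)` which is transversal to `(g, g)` there are
data arbitrarily close to `(g, 0)` without any weak solution.

`E` is the space of even pairs in `H¹(ℝ) × L²(ℝ)`, `g` the profile, `WeakSol` the notion of weak
solution, `Hyper` the notion of hypersurface, `LinearizedStability` the assertion of Q1; see the file
`Pool.Agent.Q82.CW.Space`.
-/

set_option autoImplicit false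

namespace Pool.Agent.Results.MP_96e154_an.NoLinearizedStability

open Pool.Agent.Q82.CWS

/-- For `p = (g, 0)` and `v = (g, g)`: every hypersurface through `p` transversal to `v` contains data
arbitrarily close to `p` without any weak solution, and the assertion of Q1 is false. -/
theorem result : ∃ p v : E, Repr p g (fun _ => 0) ∧ Repr v g g ∧ IllPosed p v ∧
    ¬ LinearizedStability p v := by
  obtain ⟨p, v, hp, hv, h⟩ := illPosed
  refine ⟨p, v, hp, hv, h, ?_⟩
  rintro ⟨U, M, hU, hM, hs⟩
  obtain ⟨δ, hδ, hd⟩ := hs 1 one_pos
  obtain ⟨d, hdM, hdp, hno⟩ := h U M hU hM δ hδ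
  obtain ⟨γ, hγ, -⟩ := hd d hdM hdp
  exact hno γ hγ

end Pool.Agent.Results.MP_96e154_an.NoLinearizedStability
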